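import Mathlib
import Pool.Agent.Q76.RzFrontier

/-!
# The boundary of the symmetric part of a Rauzy fractal

For the substitution `1 ↦ 132`, `2 ↦ 12`, `3 ↦ 1` the Rauzy fractals of `σ` and of the reversed
substitution meet only at the origin, so the boundary of the intersection has dimension `0`, while
the boundary of the Rauzy fractal has dimension at least `1`.
-/

namespace Pool.Agent.Results.MP_7cf8a2_an.RauzyIntersectionBoundary

open Q76.Rauzy

/-- There is a unimodular irreducible Pisot substitution `σ` on three letters such that, for all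
two-sided fixed points `u` of a power of `σ` and `v` of a power of the reversed substitution (such
fixed points exist), the boundary of the intersection of the two Rauzy fractals has Hausdorff
dimension `0`, while the boundary of the Rauzy fractal of `σ` has Hausdorff dimension at
least `1`. -/
theorem result : ∃ (σ : Fin 3 → List (Fin 3)) (lam : ℝ), IsUnimodularIrreduciblePisot σ lam ∧
    incidence (rev σ) = incidence σ ∧
    ∃ h : IsCompl (Es σ lam) (Eu σ lam),
      (∃ u : ℤ → Fin 3, IsFixedPoint σ 1 u) ∧ (∃ v : ℤ → Fin 3, IsFixedPoint (rev σ) 1 v) ∧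
      ∀ p q : ℕ, 1 ≤ p → 1 ≤ q → ∀ u v : ℤ → Fin 3,
        IsFixedPoint σ p u → IsFixedPoint (rev σ) q v →
          boundaryDimInter h u v = 0 ∧ 1 ≤ boundaryDim h u := by
  obtain ⟨lam, μ, ν, a1, a2, a3, a4, a5, a6, a7, a8, a9⟩ := Q76.Rz.exists_roots
  have h : Q76.Rz.Roots lam μ ν := ⟨a1, a2, a3, a4, a5, a6, a7, a8, a9⟩
  refine ⟨Q76.Rz.sig, lam, Q76.Rz.isUIP h, ?_, Q76.Rz.isCompl h, ?_, ?_, ?_⟩
  · ext i j
    simp [incidence, rev, List.count_reverse]
  · obtain ⟨r, hr⟩ := Q76.Rz.exists_fix Q76.Rz.grow_sig (a := 0) (by simp [Q76.Rz.sig])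
    obtain ⟨l, hl⟩ := Q76.Rz.exists_fix Q76.Rz.grow_hat (a := 1) (by simp [Q76.Rz.hat, Q76.Rz.sig])
    exact Q76.Rz.exists_two_sided hr hl
  · obtain ⟨r, hr⟩ := Q76.Rz.exists_fix Q76.Rz.grow_hat (a := 1) (by simp [Q76.Rz.hat, Q76.Rz.sig])
    obtain ⟨l, hl⟩ := Q76.Rz.exists_fix Q76.Rz.grow_sig (a := 0) (by simp [Q76.Rz.sig])
    refine Q76.Rz.exists_two_sided (σ := rev Q76.Rz.sig) (r := r) (l := l) hr ?_
    rw [show Q76.Rz.hat (rev Q76.Rz.sig) = Q76.Rz.sig from Q76.Rz.hat_hat _]
    exact hl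
  · intro p q hp hq u v hu hv
    exact ⟨Q76.Rz.dimH_inter h _ hp hq hu hv, Q76.Rz.dimH_frontier h _ hp hu⟩

end Pool.Agent.Results.MP_7cf8a2_an.RauzyIntersectionBoundary
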